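import Pool.Agent.helper13.RF.SpecU
import Pool.Agent.helper51.RF.HWB

/-! Row rf:CN3 of MP_16912e_nt. -/

set_option autoImplicit false

namespace Pool.Agent.RF

open NumberField

theorem CN3_W (e : ℝ) (he : 0 < e) : ∃ C : ℝ, 0 ≤ C ∧ ∀ f : ℕ, 1 ≤ f → W2 f ≤ C * (f : ℝ) ^ e := by
  obtain ⟨C, hC⟩ := HWB e he
  have hW : ∀ g : ℕ, 0 ≤ W2 g := fun g => by unfold W2; positivity
  have key : ∀ f : ℕ, 1 ≤ f → W2 f ≤ C * (f : ℝ) ^ e := by
    intro f hf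
    refine le_trans ?_ (hC f hf)
    have h1 : (1 : ℝ) ≤ ((f ^ 27).divisors.card : ℝ) := by
      have : 0 < (f ^ 27).divisors.card := Finset.card_pos.mpr
        ⟨1, Nat.one_mem_divisors.mpr (by positivity)⟩
      exact_mod_cast this
    exact le_mul_of_one_le_right (hW f) h1
  refine ⟨C, ?_, key⟩
  have h1 := key 1 le_rfl
  have h2 := hW 1
  simp only [Nat.cast_one, Real.one_rpow, mul_one] at h1
  linarith

theorem CN3 (h1 : MEX_stmt) (h2 : CTX_stmt) (h3 : UTY_stmt) (h4 : TTP_stmt) (h5 : UCL_stmt) (h6 : MU3_stmt) :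
    CN3_stmt := by
  intro e he
  obtain ⟨C0, hC0, hCf⟩ := CN3_W e he
  refine ⟨C0, ?_⟩
  intro D₀ f g hD1 hsq h5D K _ _ hK hx S hS hk
  have hD5 : D₀ ≠ 5 := by
    rintro rfl
    exact h5D dvd_rfl
  obtain ⟨F, _, _, s, r, w, hM⟩ := h1 D₀ hD1 hsq hD5
  obtain ⟨C, hCs, -⟩ := h2 D₀ F s r w hD1 hsq h5D hM
  have hM' : Mir D₀ F C.s r w := by rw [hCs]; exact hM
  rcases S.eq_empty_or_nonempty with hemp | ⟨p₀, hp₀⟩
  · rw [hemp, Finset.card_empty, Nat.cast_zero]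
    positivity
  · obtain ⟨a1, a2, -, -⟩ := hS p₀ hp₀
    have hf : 0 < f := by
      rcases Nat.eq_zero_or_pos f with h0 | h0
      · exfalso
        have h01 := a1.D0
        rw [a2, h0] at h01
        simp at h01
      · exact h0
    obtain ⟨B, hB⟩ : ∃ B : ℝ, B = 1 + 36 ^ f.primeFactors.card * (1 + 180 * (hU f g : ℝ) ^ 2) := ⟨_, rfl⟩
    have hB0 : 0 ≤ B := by
      rw [hB]
      positivity
    obtain ⟨Cl, hCl⟩ : ∃ Cl : ℝ, Cl = (Nat.card {c : ClassGroup (𝓞 K) // c ^ 5 = 1} : ℝ) := ⟨_, rfl⟩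
    have hCl0 : 0 ≤ Cl := by
      rw [hCl]
      positivity
    have key : (S.card : ℝ) ≤ ((∏ P ∈ QP F f, (5 * (14 * vv P (f : 𝓞 F) + 1)) : ℕ) : ℝ) * (Cl * B) := by
      refine h3 D₀ F C f hf _ (by positivity) S ?_
      intro T hT hSame
      rw [hCl]
      refine h5 D₀ F C f hD1 hsq hD5 ⟨r, w, hM'⟩ K hK hx B hB0 T (fun p hp => ?_) hSame ?_
      · obtain ⟨d1, d2, -⟩ := hS p (hT hp)
        exact ⟨d1, d2⟩
      · intro T' hT' hEq
        rw [hB]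
        exact h6 D₀ F C f g hsq (by omega) T' (fun p hp => hS p (hT (hT' hp)))
          (fun p hp q hq => hk p (hT (hT' hp)) q (hT (hT' hq)))
          (fun p hp q hq => ⟨hSame p (hT' hp) q (hT' hq), hEq p hp q hq⟩)
    have hT : ((∏ P ∈ QP F f, (5 * (14 * vv P (f : 𝓞 F) + 1)) : ℕ) : ℝ) ≤
        285 ^ (4 * f.primeFactors.card) * (f.divisors.card : ℝ) ^ 4 := by
      exact_mod_cast h4 F hM.fin f hf
    rw [← hCl]
    obtain ⟨H, hH⟩ : ∃ H : ℝ, H = (hU f g : ℝ) := ⟨_, rfl⟩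
    rw [← hH] at hB ⊢
    have h361 : (1 : ℝ) ≤ 36 ^ f.primeFactors.card := one_le_pow₀ (by norm_num)
    have hB1 : B ≤ 181 * 36 ^ f.primeFactors.card * (1 + H ^ 2) := by
      rw [hB]
      nlinarith [mul_nonneg (show (0 : ℝ) ≤ 36 ^ f.primeFactors.card - 1 by linarith) (sq_nonneg H), sq_nonneg H]
    calc (S.card : ℝ) ≤ _ := key
      _ ≤ (285 ^ (4 * f.primeFactors.card) * (f.divisors.card : ℝ) ^ 4) *
          (Cl * (181 * 36 ^ f.primeFactors.card * (1 + H ^ 2))) := by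
        gcongr
      _ = W2 f * (Cl * (1 + H ^ 2)) := by
        unfold W2
        ring
      _ ≤ C0 * (f : ℝ) ^ e * (Cl * (1 + H ^ 2)) := by
        have := hCf f hf
        gcongr

end Pool.Agent.RF
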