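import Pool.Agent.helper95.RF.SpecC2

set_option autoImplicit false

/-!
Project RF (MP_16912e_nt), row rf:CBS (sum over the bad primes).
-/

namespace Pool.Agent.RF

open Finset NumberField Pool.Agent.helper3.FT

theorem CBS_sq (w : ℕ) (hw : 1 ≤ w) (Λ : Finset ℕ) (h : ∀ l ∈ Λ, w < l) : ∑ l ∈ Λ, ((l : ℝ) ^ 2)⁻¹ ≤ (w : ℝ)⁻¹ := by
  have h1 : Λ ⊆ Ioc w (Λ.sup id + w) := by
    intro l hl
    rw [Finset.mem_Ioc]
    have h2 : l ≤ Λ.sup id := Finset.le_sup (f := id) hl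
    exact ⟨h l hl, by omega⟩
  refine (Finset.sum_le_sum_of_subset_of_nonneg h1 (fun i _ _ => by positivity)).trans ?_
  refine (sum_Ioc_inv_sq_le_sub (by omega) (by omega)).trans ?_
  have : (0 : ℝ) ≤ ((Λ.sup id + w : ℕ) : ℝ)⁻¹ := by positivity
  linarith

theorem CBS_harm (y : ℝ) (hy : 1 ≤ y) (Λ : Finset ℕ) (h : ∀ l ∈ Λ, 1 ≤ l ∧ (l : ℝ) ≤ y) : ∑ l ∈ Λ, (l : ℝ)⁻¹ ≤ 1 + Real.log y := by
  have h1 : Λ ⊆ Icc 1 ⌊y⌋₊ := fun l hl => Finset.mem_Icc.2 ⟨(h l hl).1, Nat.le_floor (h l hl).2⟩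
  refine (Finset.sum_le_sum_of_subset_of_nonneg h1 (fun i _ _ => by positivity)).trans ?_
  have h2 := harmonic_floor_le_one_add_log y hy
  rw [harmonic_eq_sum_Icc] at h2
  push_cast at h2
  exact h2

theorem CBS_card (y : ℝ) (hy : 1 ≤ y) (Λ : Finset ℕ) (h : ∀ l ∈ Λ, 1 ≤ l ∧ (l : ℝ) ≤ y) : (Λ.card : ℝ) ≤ y := by
  have h1 : Λ ⊆ Icc 1 ⌊y⌋₊ := fun l hl => Finset.mem_Icc.2 ⟨(h l hl).1, Nat.le_floor (h l hl).2⟩
  have h2 : Λ.card ≤ ⌊y⌋₊ := by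
    have h3 := Finset.card_le_card h1
    rw [Nat.card_Icc] at h3
    omega
  calc (Λ.card : ℝ) ≤ (⌊y⌋₊ : ℝ) := by exact_mod_cast h2
    _ ≤ y := Nat.floor_le (by linarith)

/-- the numbers -/
theorem CBS_num (N η : ℝ) (hη : 0 < η) (hN : 1 ≤ N) (h16 : 16 ≤ N ^ (η / 20)) :
    2 * (N ^ (3 / 4 * η) * N ^ (1 - 8 / 5 * η)) + 2 * (N ^ (1 - 5 / 4 * η) * (1 + Real.log (N ^ (3 / 4 * η)))) ≤ N ^ (1 - 4 / 5 * η) := by
  have hN0 : 0 < N := by linarith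
  have e1 : N ^ (3 / 4 * η) * N ^ (1 - 8 / 5 * η) = N ^ (1 - 17 / 20 * η) := by
    rw [← Real.rpow_add hN0]
    congr 1
    ring
  have e2 : N ^ (1 - 4 / 5 * η) = N ^ (1 - 17 / 20 * η) * N ^ (η / 20) := by
    rw [← Real.rpow_add hN0]
    congr 1
    ring
  have hp : 0 < N ^ (1 - 17 / 20 * η) := Real.rpow_pos_of_pos hN0 _
  have h1 : 4 * N ^ (1 - 17 / 20 * η) ≤ N ^ (1 - 4 / 5 * η) := by
    rw [e2]
    nlinarith
  -- the logarithm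
  have h5 : 16 ≤ N ^ (η / 5) := h16.trans (Real.rpow_le_rpow_of_exponent_le hN (by linarith))
  have hq : 1 ≤ N ^ (η / 4) := Real.one_le_rpow hN (by linarith)
  have h6 : Real.log (N ^ (3 / 4 * η)) ≤ 3 * N ^ (η / 4) := by
    have h7 := Real.log_le_rpow_div (Real.rpow_nonneg hN0.le (3 / 4 * η)) (by norm_num : (0 : ℝ) < 1 / 3)
    have h8 : (N ^ (3 / 4 * η)) ^ (1 / 3 : ℝ) = N ^ (η / 4) := by
      rw [← Real.rpow_mul hN0.le]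
      congr 1
      ring
    rw [h8] at h7
    linarith
  have h9 : 1 + Real.log (N ^ (3 / 4 * η)) ≤ 4 * N ^ (η / 4) := by linarith
  have e3 : N ^ (1 - 5 / 4 * η) * N ^ (η / 4) = N ^ (1 - η) := by
    rw [← Real.rpow_add hN0]
    congr 1
    ring
  have e4 : N ^ (1 - 4 / 5 * η) = N ^ (1 - η) * N ^ (η / 5) := by
    rw [← Real.rpow_add hN0]
    congr 1
    ring
  have hr : 0 < N ^ (1 - η) := Real.rpow_pos_of_pos hN0 _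
  have h10 : 16 * N ^ (1 - η) ≤ N ^ (1 - 4 / 5 * η) := by
    rw [e4]
    nlinarith
  have h11 : N ^ (1 - 5 / 4 * η) * (1 + Real.log (N ^ (3 / 4 * η))) ≤ 4 * N ^ (1 - η) := by
    calc N ^ (1 - 5 / 4 * η) * (1 + Real.log (N ^ (3 / 4 * η))) ≤ N ^ (1 - 5 / 4 * η) * (4 * N ^ (η / 4)) :=
          mul_le_mul_of_nonneg_left h9 (Real.rpow_nonneg hN0.le _)
      _ = 4 * (N ^ (1 - 5 / 4 * η) * N ^ (η / 4)) := by ring
      _ = 4 * N ^ (1 - η) := by rw [e3]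
  rw [e1]
  linarith

/-- the sum over `l` -/
theorem CBS_sum (Λ : Finset ℕ) (a b c : ℝ) (ha : 0 ≤ a) (hb : 0 ≤ b) (hc : 0 ≤ c) (w : ℕ) (hw : 1 ≤ w) (X : ℝ) (hX : 1 ≤ X) (h : ∀ l ∈ Λ, w < l ∧ (l : ℝ) ≤ X) :
    ∑ l ∈ Λ, 2 * (a / (l : ℝ) ^ 2 + b + c / (l : ℝ)) ≤ 2 * a / w + 2 * (X * b) + 2 * (c * (1 + Real.log X)) := by
  have h1 := CBS_sq w hw Λ fun l hl => (h l hl).1
  have h2 := CBS_harm X hX Λ fun l hl => ⟨by have := (h l hl).1; omega, (h l hl).2⟩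
  have h3 := CBS_card X hX Λ fun l hl => ⟨by have := (h l hl).1; omega, (h l hl).2⟩
  have e : ∑ l ∈ Λ, 2 * (a / (l : ℝ) ^ 2 + b + c / (l : ℝ)) = 2 * (a * ∑ l ∈ Λ, ((l : ℝ) ^ 2)⁻¹) + 2 * ((Λ.card : ℝ) * b) + 2 * (c * ∑ l ∈ Λ, (l : ℝ)⁻¹) := by
    simp only [div_eq_mul_inv, mul_add, Finset.sum_add_distrib, Finset.mul_sum, Finset.sum_const, nsmul_eq_mul]
    rw [mul_left_comm (Λ.card : ℝ) 2 b]
  rw [e]
  have h4 := mul_le_mul_of_nonneg_left h1 ha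
  have h5 := mul_le_mul_of_nonneg_left h2 hc
  have h6 := mul_le_mul_of_nonneg_right h3 hb
  have e2 : 2 * a / w = 2 * (a * (w : ℝ)⁻¹) := by
    rw [div_eq_mul_inv]
    ring
  rw [e2]
  linarith

theorem CBS (h1 : CBD_stmt) : CBS_stmt := by
  obtain ⟨C₁, hC₁, hB⟩ := h1
  refine ⟨2 * C₁, by linarith, ?_⟩
  intro E B w₀ η hE hB1 hw hη hη1
  obtain ⟨N₁, hN₁⟩ := hB E B η hE hB1 hη hη1
  obtain ⟨N₂, hN₂⟩ := Filter.eventually_atTop.1 ((tendsto_rpow_atTop (by positivity : 0 < η / 20)).eventually_ge_atTop 16)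
  refine ⟨max N₁ (max N₂ 1), ?_⟩
  intro N hN Q L V z₀ S T M₀ s₀ hRg hPar hKF hM Λ G hΛ hG
  have hNa : N₁ ≤ N := (le_max_left _ _).trans hN
  have hNb : N₂ ≤ N := ((le_max_left _ _).trans (le_max_right _ _)).trans hN
  have hNc : 1 ≤ N := ((le_max_right _ _).trans (le_max_right _ _)).trans hN
  have hN0 : 0 < N := by linarith
  have hX : 1 ≤ N ^ (3 / 4 * η) := Real.one_le_rpow hNc (by linarith)
  have hT0 : 0 ≤ T0 T L V := Finset.sum_nonneg fun k _ => by positivity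
  have ha : 0 ≤ C₁ * T0 T L V := mul_nonneg (by linarith) hT0
  have hb : 0 ≤ N ^ (1 - 8 / 5 * η) := Real.rpow_nonneg hN0.le _
  have hc : 0 ≤ N ^ (1 - 5 / 4 * η) := Real.rpow_nonneg hN0.le _
  have hnum := CBS_num N η hη hNc (hN₂ N hNb)
  have hsum := CBS_sum Λ (C₁ * T0 T L V) (N ^ (1 - 8 / 5 * η)) (N ^ (1 - 5 / 4 * η)) ha hb hc w₀ hw (N ^ (3 / 4 * η)) hX
    fun l hl => ⟨(hΛ l hl).2.2.1, (hΛ l hl).2.2.2⟩
  have hfin : 2 * (C₁ * T0 T L V) / w₀ = 2 * C₁ / w₀ * T0 T L V := by ring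
  rw [hfin] at hsum
  refine le_trans (Finset.sum_le_sum fun l hl => ?_) (hsum.trans (by linarith))
  have hbl : 0 ≤ C₁ * T0 T L V / (l : ℝ) ^ 2 + N ^ (1 - 8 / 5 * η) + N ^ (1 - 5 / 4 * η) / (l : ℝ) := by positivity
  refine le_trans (Finset.sum_le_card_nsmul (G l) _ (C₁ * T0 T L V / (l : ℝ) ^ 2 + N ^ (1 - 8 / 5 * η) + N ^ (1 - 5 / 4 * η) / (l : ℝ)) ?_) ?_
  · intro p hp
    obtain ⟨hp1, hp2, hp3⟩ := (hG l hl).2 p hp
    have h := hN₁ N hNa Q L V z₀ S T M₀ s₀ hRg hPar hKF hM p.1 p.2 (by rw [hp1]; exact (hΛ l hl).1) (by rw [hp1]; exact (hΛ l hl).2.1) hp2 hp3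
      (by rw [hp1]; exact (hΛ l hl).2.2.2)
    rw [hp1] at h
    exact h
  · rw [nsmul_eq_mul]
    apply mul_le_mul_of_nonneg_right _ hbl
    exact_mod_cast (hG l hl).1

end Pool.Agent.RF
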